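import Pool.Agent.ZP3.Stmts

/-!
Squad ZP3 (MP_6e1a06_nt), row VX2: the vertex in the second pattern.
-/

set_option autoImplicit false

namespace Pool.Agent.ZP3.H18

open Polynomial Pool.Agent.ZPT Pool.Agent.ZP3

noncomputable section

variable {K : Type} [NormedField K] [IsUltrametricDist K]

/-- ultrametric triangle inequality with a bound -/
theorem add_le {a b : K} {r : ℝ} (ha : ‖a‖ ≤ r) (hb : ‖b‖ ≤ r) : ‖a + b‖ ≤ r :=
  (IsUltrametricDist.norm_add_le_max a b).trans (max_le ha hb)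

theorem sub_le {a b : K} {r : ℝ} (ha : ‖a‖ ≤ r) (hb : ‖b‖ ≤ r) : ‖a - b‖ ≤ r := by
  rw [sub_eq_add_neg]
  exact add_le ha (by rwa [norm_neg])

/-- powers of nearby elements of the unit ball -/
theorem pow_near {x y : K} {r : ℝ} (hx : ‖x‖ ≤ 1) (hy : ‖y‖ ≤ 1) (h : ‖x - y‖ ≤ r) (hr : 0 ≤ r)
    (n : ℕ) : ‖x ^ n - y ^ n‖ ≤ r := by
  induction n with
  | zero => simpa using hr
  | succ n ih =>
    have e : x ^ (n + 1) - y ^ (n + 1) = (x ^ n - y ^ n) * x + y ^ n * (x - y) := by ring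
    rw [e]
    refine add_le ?_ ?_
    · rw [norm_mul]
      calc ‖x ^ n - y ^ n‖ * ‖x‖ ≤ r * 1 := mul_le_mul ih hx (norm_nonneg _) hr
        _ = r := mul_one r
    · rw [norm_mul, norm_pow]
      calc ‖y‖ ^ n * ‖x - y‖ ≤ 1 * r :=
            mul_le_mul (pow_le_one₀ (norm_nonneg _) hy) h (norm_nonneg _) zero_le_one
        _ = r := one_mul r

/-- finite sums -/
theorem sum_le {s : Finset ℕ} {f : ℕ → K} {r : ℝ} (hr : 0 ≤ r) (h : ∀ i ∈ s, ‖f i‖ ≤ r) :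
    ‖∑ i ∈ s, f i‖ ≤ r := by
  classical
  induction s using Finset.induction_on with
  | empty => simpa using hr
  | insert a s ha ih =>
    rw [Finset.sum_insert ha]
    refine add_le (h a (Finset.mem_insert_self a s)) (ih ?_)
    intro i hi
    exact h i (Finset.mem_insert_of_mem hi)

/-- tail of a series -/
theorem tail_le [CompleteSpace K] {A : ℕ → K} {t : K} (hA : ∀ n, ‖A n‖ ≤ 1) (ht : ‖t‖ < 1)
    (e : ℕ) :
    ‖∑' n : ℕ, A n * t ^ n - ∑ n ∈ Finset.range (e + 1), A n * t ^ n‖ ≤ ‖t‖ ^ (e + 1) := by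
  have hs : Summable fun n : ℕ => A n * t ^ n := by
    refine Summable.of_norm_bounded (g := fun n => ‖t‖ ^ n)
      (summable_geometric_of_lt_one (norm_nonneg _) ht) fun n => ?_
    rw [norm_mul, norm_pow]
    exact mul_le_of_le_one_left (by positivity) (hA n)
  have h1 := hs.sum_add_tsum_nat_add (e + 1)
  have h2 : ∑' n : ℕ, A n * t ^ n - ∑ n ∈ Finset.range (e + 1), A n * t ^ n =
      ∑' n : ℕ, A (n + (e + 1)) * t ^ (n + (e + 1)) := by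
    rw [← h1]
    ring
  rw [h2]
  refine IsUltrametricDist.norm_tsum_le_of_forall_le_of_nonneg (by positivity) fun n => ?_
  rw [norm_mul, norm_pow, pow_add]
  calc ‖A (n + (e + 1))‖ * (‖t‖ ^ n * ‖t‖ ^ (e + 1)) ≤ 1 * (1 * ‖t‖ ^ (e + 1)) := by
        refine mul_le_mul (hA _) ?_ (by positivity) zero_le_one
        exact mul_le_mul_of_nonneg_right (pow_le_one₀ (norm_nonneg _) ht.le) (by positivity)
    _ = ‖t‖ ^ (e + 1) := by ring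

end

/-- ROW VX2. -/
theorem vx2 (hVR2 : VR2Stmt) (hSEP : SEPStmt) (hRAY : RAYStmt) (hTAT : TATStmt) (hURR : URRStmt)
    (hURT : URTStmt) : VX2Stmt := by
  intro U hU p hp hp5 K _ _ _ _ _ hK e A g₁ g₂ g₃ β ε he hep hA hA0 hg1 hg2 hg3 hβ hD hε
  obtain ⟨hring, hrat, hint, hsmall, hinv⟩ := hURR p hp K hK
  obtain ⟨htame, _⟩ := hURT p hp K hK
  have hp0 : (0 : ℝ) < p := by exact_mod_cast hp.pos
  have hp1 : (1 : ℝ) < p := by exact_mod_cast hp.one_lt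
  have hpi0 : (0 : ℝ) < (p : ℝ)⁻¹ := inv_pos.2 hp0
  have hpi1 : (p : ℝ)⁻¹ < 1 := inv_lt_one_of_one_lt₀ hp1
  have hpK : (p : K) ≠ 0 := Nat.cast_ne_zero.2 hp.ne_zero
  have hnp : ‖(p : K)‖ = (p : ℝ)⁻¹ := by
    have h := hK (p : ℚ)
    rw [Rat.cast_natCast] at h
    rw [h, padicNorm.padicNorm_p hp.one_lt]
    push_cast
    rfl
  obtain ⟨u, hu⟩ : ∃ u : K, u = ((PowerSeries.coeff 1 U : ℚ) : K) := ⟨_, rfl⟩
  have huU : Ur p u := by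
    rw [hu]
    exact hrat _ (hU.pint p hp hp5 1)
  have hpU : Ur p (p : K) := by
    have := hint (p : ℤ)
    rwa [Int.cast_natCast] at this
  -- the unit kappa
  obtain ⟨κ, hκ⟩ : ∃ κ : K, κ = g₃ + p * (β - u) := ⟨_, rfl⟩
  have hpx : ∀ x : K, ‖x‖ ≤ 1 → ‖(p : K) * x‖ ≤ (p : ℝ)⁻¹ := by
    intro x hx
    rw [norm_mul, hnp]
    exact mul_le_of_le_one_right hpi0.le hx
  have hβu : Ur p (β - u) := (hring β u hβ huU).2.2.2
  have hκU : Ur p κ := by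
    rw [hκ]
    exact (hring _ _ hg3.1 (hring _ _ hpU hβu).2.1).1
  have hunit : ∀ x y : K, ‖x‖ = 1 → ‖y‖ ≤ (p : ℝ)⁻¹ → ‖x + y‖ = 1 := by
    intro x y hx hy
    have h1 : ‖y‖ < ‖x‖ := by rw [hx]; linarith
    rw [IsUltrametricDist.norm_add_eq_max_of_norm_ne_norm h1.ne', max_eq_left h1.le, hx]
  have hκ1 : ‖κ‖ = 1 := by
    rw [hκ]
    exact hunit _ _ hg3.2 (hpx _ hβu.1)
  have hκu : Uu p κ := ⟨hκU, hκ1⟩
  -- the unit D
  obtain ⟨D, hDd⟩ : ∃ D : K, D = g₁ - A 0 * g₂ := ⟨_, rfl⟩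
  have hDU : Ur p D := by
    rw [hDd]
    exact (hring _ _ hg1.1 (hring _ _ (hA 0) hg2.1).2.1).2.2.2
  rw [← hDd] at hD
  have hDu : Uu p D := ⟨hDU, hD⟩
  have hDi : Uu p D⁻¹ := hinv D hDu
  have hD0 : D ≠ 0 := by
    intro h
    rw [h, norm_zero] at hD
    exact zero_ne_one hD
  have hmul : ∀ x y : K, Uu p x → Uu p y → Uu p (x * y) := by
    intro x y hx hy
    exact ⟨(hring x y hx.1 hy.1).2.1, by rw [norm_mul, hx.2, hy.2, mul_one]⟩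
  have hneg : ∀ x : K, Uu p x → Uu p (-x) := by
    intro x hx
    exact ⟨(hring x x hx.1 hx.1).2.2.1, by rw [norm_neg, hx.2]⟩
  have hAu : Uu p (A 0) := ⟨hA 0, hA0⟩
  -- the uniformizer
  obtain ⟨π, hπ⟩ := IsAlgClosed.exists_pow_nat_eq (p : K) he
  have hπn : ‖π‖ ^ e = (p : ℝ)⁻¹ := by rw [← norm_pow, hπ, hnp]
  have hπ0 : 0 < ‖π‖ := by
    rcases (norm_nonneg π).lt_or_eq with h | h
    · exact h
    · rw [← h, zero_pow (by omega)] at hπn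
      exact absurd hπn hpi0.ne
  have hπ1 : ‖π‖ < 1 := by
    by_contra h
    rw [not_lt] at h
    have := one_le_pow₀ h (n := e)
    linarith
  have hπK : π ≠ 0 := norm_pos_iff.1 hπ0
  obtain ⟨δ, hδ⟩ : ∃ δ : ℝ, δ = max ε ‖π‖ := ⟨_, rfl⟩
  have hεδ : ε ≤ δ := by rw [hδ]; exact le_max_left _ _
  have hπδ : ‖π‖ ≤ δ := by rw [hδ]; exact le_max_right _ _
  have hδ1 : δ < 1 := by rw [hδ]; exact max_lt hε hπ1
  have hδ0 : 0 ≤ δ := hπ0.le.trans hπδ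
  have hpδ : (p : ℝ)⁻¹ ≤ δ := by
    refine le_trans ?_ hπδ
    rw [← hπn]
    exact pow_le_of_le_one hπ0.le hπ1.le (by omega)
  have hδp0 : 0 ≤ δ * (p : ℝ)⁻¹ := by positivity
  have hpe : ¬ p ∣ e := Nat.not_dvd_of_pos_of_lt (by omega) hep
  -- Raynaud
  obtain ⟨c, hc⟩ : ∃ c : K, c = (A e - u + A 0 * u) * D⁻¹ := ⟨_, rfl⟩
  have hc1 : ‖c‖ ≤ 1 := by
    rw [hc]
    exact (hring _ _ (hring _ _ (hring _ _ (hA e) huU).2.2.2 (hring _ _ (hA 0) huU).2.1).1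
      hDi.1).2.1.1
  obtain ⟨M, hM, hray⟩ := hRAY p hp hp5 K hK 1 (κ * D⁻¹) (-(A 0 * κ) * D⁻¹) 1 (C (C c)) δ le_rfl
    (Nat.not_dvd_of_pos_of_lt one_pos (by omega)) (hmul _ _ hκu hDi)
    (hmul _ _ (hneg _ (hmul _ _ hAu hκu)) hDi) norm_one (by
      intro i j
      rw [coeff_C]
      split_ifs
      · rw [coeff_C]
        split_ifs
        · exact hc1
        · rw [norm_zero]; exact zero_le_one
      · rw [coeff_zero, norm_zero]; exact zero_le_one) hδ1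
  refine ⟨M, hM, ?_⟩
  intro t x₃ q₁ q₂ q₃ P hx ht hq2 hq1 hY hX
  have hq10 : q₁ ≠ 0 := norm_pos_iff.1 P.q10
  have hq20 : q₂ ≠ 0 := norm_pos_iff.1 P.q20
  have hq30 : q₃ ≠ 0 := norm_pos_iff.1 P.q30
  have ht0 : t ≠ 0 := norm_pos_iff.1 P.t0
  have hXu := htame _ hX
  have hYu := htame _ hY
  obtain ⟨v1, τ₀, hτ₀, v2, v3⟩ := hVR2 U hU p hp hp5 K hK e e A g₁ g₂ g₃ β π δ he hpe hA hg2 hg3 hβ
    hπ hπδ hδ1 t x₃ q₁ q₂ q₃ P ht hq2 hY (hx.trans hεδ)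
  rw [← hu, ← hκ] at v1 v3
  have hτ0 : τ₀ ≠ 0 := by
    intro h
    have := hτ₀.2
    rw [h, norm_zero] at this
    exact zero_ne_one this
  -- the parameter
  obtain ⟨τ, hτ⟩ : ∃ τ : K, τ = t / π := ⟨_, rfl⟩
  rw [← hτ] at v2
  have htτ : t = π * τ := by rw [hτ]; field_simp
  have htn : ‖t‖ = ‖π‖ := by
    have h : ‖t‖ ^ e = ‖π‖ ^ e := by rw [ht, hπn]
    exact (pow_left_inj₀ (norm_nonneg _) (norm_nonneg _) (by omega)).1 h
  have hτn : ‖τ‖ = 1 := by rw [hτ, norm_div, htn, div_self hπ0.ne']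
  have hτK : τ ≠ 0 := by
    intro h
    rw [h, norm_zero] at hτn
    exact zero_ne_one hτn
  have hinvd : ‖τ⁻¹ - τ₀⁻¹‖ ≤ δ * (p : ℝ)⁻¹ := by
    have h : τ⁻¹ - τ₀⁻¹ = (τ₀ - τ) * (τ⁻¹ * τ₀⁻¹) := by
      field_simp
    rw [h, norm_mul, norm_mul, norm_inv, norm_inv, hτn, hτ₀.2, norm_sub_rev]
    simpa using v2
  have hτi : ‖τ⁻¹‖ ≤ 1 := by rw [norm_inv, hτn, inv_one]
  have hτ₀i : ‖τ₀⁻¹‖ ≤ 1 := by rw [norm_inv, hτ₀.2, inv_one]
  -- the first coordinate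
  obtain ⟨S, hS⟩ : ∃ S : K, S = ∑' n : ℕ, A n * t ^ n := ⟨_, rfl⟩
  have b1 : ‖(p : K) / q₁ - ((τ⁻¹) ^ e * S + g₁ - p * u)‖ ≤ δ * (p : ℝ)⁻¹ := by
    have h1 := ((hTAT U hU p hp hp5 K hK).2 q₁ P.q10 P.q11).2
    rw [← hu, P.e1, ← hS, hq1] at h1
    have h2 : (p : K) / q₁ - ((τ⁻¹) ^ e * S + g₁ - p * u) =
        p * (q₁⁻¹ - (S / t ^ e + g₁ / p - u)) := by
      have h3 : t ^ e = p * τ ^ e := by rw [htτ, mul_pow, hπ]
      rw [h3, inv_pow]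
      have hτe : τ ^ e ≠ 0 := pow_ne_zero _ hτK
      field_simp
    rw [h2, norm_mul, hnp]
    calc (p : ℝ)⁻¹ * ‖q₁⁻¹ - (S / t ^ e + g₁ / p - u)‖ ≤ (p : ℝ)⁻¹ * (p : ℝ)⁻¹ :=
          mul_le_mul_of_nonneg_left h1 hpi0.le
      _ ≤ δ * (p : ℝ)⁻¹ := mul_le_mul_of_nonneg_right hpδ hpi0.le
  -- truncation
  have b2 : ‖S - ∑ n ∈ Finset.range (e + 1), A n * t ^ n‖ ≤ δ * (p : ℝ)⁻¹ := by
    rw [hS]
    refine (tail_le (fun n => (hA n).1) P.t1 e).trans ?_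
    rw [pow_succ, ht, htn, mul_comm]
    exact mul_le_mul_of_nonneg_right hπδ hpi0.le
  -- the sum in terms of pi
  have b3 : ∀ x : K, x ≠ 0 → (x⁻¹) ^ e * ∑ n ∈ Finset.range (e + 1), A n * (π * x) ^ n =
      ∑ n ∈ Finset.range (e + 1), π ^ n * (A n * (x⁻¹) ^ (e - n)) := by
    intro x hx
    rw [Finset.mul_sum]
    refine Finset.sum_congr rfl fun n hn => ?_
    rw [Finset.mem_range] at hn
    have h1 : (x⁻¹) ^ e = (x⁻¹) ^ (e - n) * (x⁻¹) ^ n := by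
      rw [← pow_add]
      congr 1
      omega
    rw [h1, mul_pow]
    have h2 : (x⁻¹) ^ n * x ^ n = 1 := by rw [← mul_pow, inv_mul_cancel₀ hx, one_pow]
    calc (x⁻¹) ^ (e - n) * (x⁻¹) ^ n * (A n * (π ^ n * x ^ n)) =
        π ^ n * (A n * (x⁻¹) ^ (e - n)) * ((x⁻¹) ^ n * x ^ n) := by ring
      _ = _ := by rw [h2, mul_one]
  have b4 : ‖∑ n ∈ Finset.range (e + 1), π ^ n * (A n * (τ⁻¹) ^ (e - n)) -
      ∑ n ∈ Finset.range (e + 1), π ^ n * (A n * (τ₀⁻¹) ^ (e - n))‖ ≤ δ * (p : ℝ)⁻¹ := by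
    rw [← Finset.sum_sub_distrib]
    refine sum_le hδp0 fun n _ => ?_
    have h1 : π ^ n * (A n * (τ⁻¹) ^ (e - n)) - π ^ n * (A n * (τ₀⁻¹) ^ (e - n)) =
        π ^ n * A n * ((τ⁻¹) ^ (e - n) - (τ₀⁻¹) ^ (e - n)) := by ring
    rw [h1, norm_mul, norm_mul, norm_pow]
    have h2 := pow_near hτi hτ₀i hinvd hδp0 (e - n)
    calc ‖π‖ ^ n * ‖A n‖ * ‖(τ⁻¹) ^ (e - n) - (τ₀⁻¹) ^ (e - n)‖ ≤ 1 * 1 * (δ * (p : ℝ)⁻¹) := by
          refine mul_le_mul ?_ h2 (norm_nonneg _) (by norm_num)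
          exact mul_le_mul (pow_le_one₀ hπ0.le hπ1.le) (hA n).1 (norm_nonneg _) zero_le_one
      _ = _ := by ring
  have b5 : ∑ n ∈ Finset.range (e + 1), π ^ n * (A n * (τ₀⁻¹) ^ (e - n)) =
      A 0 * (τ₀⁻¹) ^ e + ∑ i ∈ Finset.Icc 1 e, π ^ i * (A i * (τ₀⁻¹) ^ (e - i)) := by
    rw [Finset.sum_range_succ', pow_zero, one_mul, Nat.sub_zero, add_comm]
    congr 1
    rw [Finset.range_eq_Ico, Finset.sum_Ico_add' (fun i => π ^ i * (A i * (τ₀⁻¹) ^ (e - i))) 0 e 1]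
    refine Finset.sum_congr ?_ fun _ _ => rfl
    ext i
    rw [Finset.mem_Ico, Finset.mem_Icc]
    omega
  -- the relation for X
  obtain ⟨w, hw⟩ : ∃ w : K, w = κ * (q₃ / q₁) - A 0 * (τ₀⁻¹) ^ e - g₁ + p * u := ⟨_, rfl⟩
  have hτ₀iU : Uu p τ₀⁻¹ := hinv _ hτ₀
  have hpowU : ∀ n : ℕ, Ur p ((τ₀⁻¹) ^ n) := by
    intro n
    induction n with
    | zero =>
      rw [pow_zero]
      have := hint 1
      rwa [Int.cast_one] at this
    | succ n ih =>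
      rw [pow_succ]
      exact (hring _ _ ih hτ₀iU.1).2.1
  have hwU : Ur p w := by
    rw [hw]
    refine (hring _ _ ?_ (hring _ _ hpU huU).2.1).1
    refine (hring _ _ ?_ hg1.1).2.2.2
    refine (hring _ _ (hring _ _ hκU hXu.1).2.1 ?_).2.2.2
    exact (hring _ _ (hA 0) (hpowU e)).2.1
  have b6 : ‖w - ∑ i ∈ Finset.Icc 1 e, π ^ i * (A i * (τ₀⁻¹) ^ (e - i))‖ ≤ δ * (p : ℝ)⁻¹ := by
    have h1 : w - ∑ i ∈ Finset.Icc 1 e, π ^ i * (A i * (τ₀⁻¹) ^ (e - i)) =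
        ((κ - p / q₃) * (q₃ / q₁) + (p / q₁ - ((τ⁻¹) ^ e * S + g₁ - p * u))) +
        ((τ⁻¹) ^ e * (S - ∑ n ∈ Finset.range (e + 1), A n * t ^ n) +
        (∑ n ∈ Finset.range (e + 1), π ^ n * (A n * (τ⁻¹) ^ (e - n)) -
      ∑ n ∈ Finset.range (e + 1), π ^ n * (A n * (τ₀⁻¹) ^ (e - n)))) := by
      have h2 := b3 τ hτK
      rw [← htτ] at h2
      have h3 : (p : K) / q₃ * (q₃ / q₁) = p / q₁ := by field_simp
      rw [b5, ← h2, hw]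
      linear_combination h3
    rw [h1]
    refine add_le (add_le ?_ b1) (add_le ?_ b4)
    · rw [norm_mul, hXu.2, mul_one, norm_sub_rev]
      exact v1
    · rw [norm_mul, norm_pow]
      calc ‖τ⁻¹‖ ^ e * ‖S - ∑ n ∈ Finset.range (e + 1), A n * t ^ n‖ ≤ 1 * (δ * (p : ℝ)⁻¹) :=
            mul_le_mul (pow_le_one₀ (norm_nonneg _) hτi) b2 (norm_nonneg _) zero_le_one
        _ = _ := one_mul _
  have b7 := hSEP p hp K hK e π w (fun i => A i * (τ₀⁻¹) ^ (e - i)) δ he hπ hwU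
    (fun i => (hring _ _ (hA i) (hpowU _)).2.1) hπδ hδ1 b6
  simp only [Nat.sub_self, pow_zero, mul_one] at b7
  -- elimination of tau
  have b8 : (τ₀⁻¹) ^ e = κ * (q₃ / q₂) - g₂ + p * u := by
    have h1 : τ₀ ^ e * (τ₀⁻¹) ^ e = 1 := by rw [← mul_pow, mul_inv_cancel₀ hτ0, one_pow]
    have h2 : τ₀ ^ e ≠ 0 := pow_ne_zero _ hτ0
    exact mul_left_cancel₀ h2 (h1.trans v3.symm)
  have b9 : ‖κ * D⁻¹ * (q₃ / q₁) + -(A 0 * κ) * D⁻¹ * (q₃ / q₂) - 1 - (p : K) * c‖ ≤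
      δ * (p : ℝ)⁻¹ := by
    have h1 : κ * D⁻¹ * (q₃ / q₁) + -(A 0 * κ) * D⁻¹ * (q₃ / q₂) - 1 - (p : K) * c =
        (w - p * A e) * D⁻¹ := by
      have h2 : D⁻¹ * D = 1 := inv_mul_cancel₀ hD0
      rw [hw, b8, hc]
      have h3 : g₁ = D + A 0 * g₂ := by rw [hDd]; ring
      rw [h3]
      linear_combination h2
    rw [h1, norm_mul, hDi.2, mul_one]
    exact b7
  have hfin := hray (q₃ / q₁) (q₃ / q₂) (q₃ / q₁)⁻¹ hX hY (by rw [norm_inv, hXu.2, inv_one]) (by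
    rw [pow_one, one_div, inv_inv, one_mul, sub_self, norm_zero]
    exact zero_lt_one) (by
    rw [map_C, eval_C, coe_evalRingHom, eval_C]
    exact b9)
  rw [div_pow] at hfin
  have hq1M : q₁ ^ M ≠ 0 := pow_ne_zero _ hq10
  rw [div_eq_one_iff_eq hq1M] at hfin
  exact hfin.symm

end Pool.Agent.ZP3.H18
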